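import Pool.Agent.K1H16.CD.Fin

/-!
# The trees with equal domination and certified domination numbers

The trees `T` with `γ_cer (T) = γ (T)` are the tree with one vertex and the trees which are built from
stars by three operations. Each operation attaches a new star by one edge. The trees of the family
carry labels: the set `D` of the black vertices and the set `P` of the marked vertices. The base of
the family consists of the stars with at least two leaves, with black centre and one marked
vertex. The operations attach a star with black centre `d`, white leaves and one marked vertex `p`:

* `op1`: a star with at least two leaves, whose centre is joined to a black unmarked vertex `y`; a leaf
  is marked;
* `op2`: a star with at least one leaf, whose centre is joined to a white unmarked vertex `y`; a leaf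
  is marked, or the centre is marked and no neighbour of `y` in the old tree is marked;
* `op3`: a star with at least two leaves, whose leaf `x` is joined to a white vertex `y`; a leaf other
  than `x` is marked, or the centre is marked and `y` is not marked, or `x` is marked and neither `y`
  nor a neighbour of `y` in the old tree is marked.

The labels have a meaning: `(T, D, P)` is in the family if and only if `T` is a tree, `D` is a
dominating set, each vertex of `D` has two neighbours outside `D`, `P` is a packing, each closed
neighbourhood of a vertex of `P` contains one vertex of `D` and each closed neighbourhood of a vertex
of `D` contains one vertex of `P` (`Valid`). Then `D` is a minimum dominating set and a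
certified one, and `P` is a maximum packing, `|D| = |P| = γ (T)`.

Outline of the proof. For trees the domination number is equal to the packing number
(Meir and Moon; proved in `Fin.lean`), so a tree with `γ_cer = γ`, `|V| ≥ 2`, has valid labels: a
minimum certified dominating set `D` and a maximum packing `P`. The main point is
`Peel.lean`: a valid labelled tree which is not a star is obtained by one of the operations from a
smaller valid labelled tree. The star to be removed is found at a black vertex of maximal
depth; the white vertices above it decide which of the operations is used.
-/

set_option autoImplicit false

namespace Pool.Agent.Results.MP_b206e4_co.ConstructiveCharacterisation

open K1H16.CD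

/-- For every finite graph `G`: `G` is a tree with `γ_cer (G) = γ (G)` if and only if `G` has one vertex
or `G` is, for some labels `D`, `P`, in the family `Fam` of the labelled trees built from stars by
the three operations. Moreover the labels of the family are exactly the valid ones, and for such
labels `D` is a certified dominating set with `γ (G)` vertices and `P` is a packing with `γ (G)`
vertices. -/
theorem result {V : Type} [Finite V] (G : SimpleGraph V) :
    ((G.IsTree ∧ certNum G = domNum G) ↔ (Nat.card V = 1 ∨ ∃ D P : Set V, Fam V G D P)) ∧
    (∀ D P : Set V, Fam V G D P ↔ (G.IsTree ∧ Valid G D P)) ∧
    (∀ D P : Set V, Fam V G D P → Certified G D ∧ D.ncard = domNum G ∧ P.ncard = domNum G) :=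
  main G

end Pool.Agent.Results.MP_b206e4_co.ConstructiveCharacterisation
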